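import Pool.Agent.KS6_21.SP.AnyDim

/-!
# Approximate semi-amenability of the Schatten classes of arbitrary Hilbert spaces

The definitions are those of `Pool.Agent.X179.SP` (library): `Bimod` (Banach bimodules), `Bimod.dual`,
`IsDerivation`, `ApproxSemiInner`, `ApproxSemiAmenable`, `IsSVD` and `IsSchatten`.
-/

set_option autoImplicit false

namespace Pool.Agent.Results.MP_fc9cb6_an.AllHilbertSpaces

open Pool.Agent.X179.SP

/-- Let `H` be a complex Hilbert space of any dimension (finite, countable or uncountable), `1 ≤ p < ∞`,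
and let the Banach algebra `A` be the Schatten class `S_p` of `H`.
(1) `A` is approximately semi-amenable iff `p = 1` or `H` is finite-dimensional.
(2) If `p = 1`, then every continuous derivation of `A` into any Banach bimodule is approximately semi-inner.
(3) If `H` is finite-dimensional, then every continuous derivation `D` of `A` into any Banach bimodule is
semi-inner: `D a = a · ξ - η · a` for some `ξ`, `η`.
(4) If `p > 1` and `H` is infinite-dimensional, then there are a Banach bimodule `X` and a continuous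
derivation of `A` into `X*` which is not approximately semi-inner. -/
theorem result (p : ℝ) (hp : 1 ≤ p)
    (H : Type) [NormedAddCommGroup H] [InnerProductSpace ℂ H] [CompleteSpace H]
    (A : Type) [NonUnitalNormedRing A] [NormedSpace ℂ A] [IsScalarTower ℂ A A]
    [SMulCommClass ℂ A A] [CompleteSpace A]
    (ι : A →ₙₐ[ℂ] (H →L[ℂ] H)) (hι : IsSchatten p ι) :
    (ApproxSemiAmenable A ↔ p = 1 ∨ FiniteDimensional ℂ H) ∧
    (p = 1 → ∀ (Y : Type) [NormedAddCommGroup Y] [NormedSpace ℂ Y] [CompleteSpace Y] (M : Bimod A Y)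
      (D : A →L[ℂ] Y), IsDerivation M D → ApproxSemiInner M D) ∧
    (FiniteDimensional ℂ H → ∀ (Y : Type) [NormedAddCommGroup Y] [NormedSpace ℂ Y] (M : Bimod A Y)
      (D : A →L[ℂ] Y), IsDerivation M D → ∃ ξ η : Y, ∀ a, D a = M.left a ξ - M.right a η) ∧
    (1 < p → ¬ FiniteDimensional ℂ H → ∃ (X : Type) (_ : NormedAddCommGroup X) (_ : NormedSpace ℂ X)
      (_ : CompleteSpace X) (M : Bimod A X) (D : A →L[ℂ] (X →L[ℂ] ℂ)),
      IsDerivation M.dual D ∧ ¬ ApproxSemiInner M.dual D) := by
  have h2 : p = 1 → ∀ (Y : Type) [NormedAddCommGroup Y] [NormedSpace ℂ Y] [CompleteSpace Y]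
      (M : Bimod A Y) (D : A →L[ℂ] Y), IsDerivation M D → ApproxSemiInner M D := by
    rintro rfl Y _ _ _ M D hD
    exact KS6_21.SP.one_part hι M D hD
  have h3 : FiniteDimensional ℂ H → ∀ (Y : Type) [NormedAddCommGroup Y] [NormedSpace ℂ Y]
      (M : Bimod A Y) (D : A →L[ℂ] Y), IsDerivation M D →
      ∃ ξ η : Y, ∀ a, D a = M.left a ξ - M.right a η := by
    intro hf Y _ _ M D hD
    exact KS6_21.SP.finite_part hι M D hD
  have h4 : 1 < p → ¬ FiniteDimensional ℂ H → ¬ ApproxSemiAmenable A := by
    intro h hf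
    obtain ⟨e, he⟩ := KS6_21.SP.exists_orthonormal hf
    exact neg_part h hι he
  refine ⟨⟨fun hA => ?_, ?_⟩, h2, h3, ?_⟩
  · by_contra hcon
    push Not at hcon
    exact h4 (lt_of_le_of_ne hp (Ne.symm hcon.1)) hcon.2 hA
  · rintro (h | h) X _ _ _ M D hD
    · exact h2 h _ M.dual D hD
    · obtain ⟨ξ, η, hξ⟩ := h3 h _ M.dual D hD
      refine ⟨ℕ, inferInstance, inferInstance, inferInstance, fun _ => ξ, fun _ => η, fun a => ?_⟩
      rw [hξ a]
      exact tendsto_const_nhds
  · intro h hf
    by_contra hcon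
    apply h4 h hf
    intro X _ _ _ M D hD
    by_contra hnot
    exact hcon ⟨X, inferInstance, inferInstance, inferInstance, M, D, hD, hnot⟩

end Pool.Agent.Results.MP_fc9cb6_an.AllHilbertSpaces
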